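import Pool.Agent.helper53.ORT.Spec

-- Row ort:MN of MP_561ff4_al.

set_option autoImplicit false

namespace Pool.Agent.ORT

open Module Pool.Agent.GS

theorem MN (mnp : MNP_stmt) (po : GS.PO_stmt) : MN_stmt := by
  intro F V _ _ _ _ _ B hF hB h7 y ψ ν hs hn r hr hr2 hk
  obtain ⟨j, l, κ, ψ', ν', hl, hs', hn', hκ, hpow⟩ := po B y ψ ν hs hn
  obtain ⟨z, hz, hg, hNS⟩ := mnp B hF hB h7 (y ^ j) ψ' ν' hs' hn' l κ hl hκ hpow r hr hr2 hk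
  exact ⟨z, hz, hg.of_pow, hNS⟩

end Pool.Agent.ORT
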